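import Pool.Agent.T2H73.LC.Main

/-!
# Two Markovian limit curtain processes

The conjecture of Q1 is false: there is a right-continuous peacock `(μ_t)` for which `LimCurt([μ])`
contains two different laws under which the canonical process is Markov.

The peacock. Let `z_k = 2^{-k-2}`, `a_k = 1 / (3 - z_k)` and let `s_k = 1/2 - 2^{-k-1}` (`s_0 = 0`)
increase to `1/2`. During `[s_k, s_{k+1})` the law `μ_t` is
`a_k δ_{z_k} + a_{k+1} δ_{z_{k+1}} + (1 - a_k - a_{k+1}) δ_3`; for `t ≥ 1/2` it is
`(δ_{-2} + δ_{-1} + δ_1 + δ_2) / 6 + δ_3 / 3`. The left-curtain coupling of two consecutive stages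
lets the left particle `z_{k+1}` stay, and the right particle `z_k` jumps over it to `z_{k+2}` (or
leaks to `3`). So there are two particles, with the positions `z_0, z_2, z_4, ...` and
`z_1, z_3, ...`, which approach `0` and exchange their order infinitely often. For the dyadic
partition with step `2^{-K-1}` the last step before `1/2` starts at `s_K`, and the curtain coupling
sends the left particle `z_{K+1}` to `±1` (and, with a probability which tends to `0`, to `2`) and
the right one, `z_K`, to `±2` (up to vanishing probabilities). Hence for even `K` the even particle
ends at `±2` and the odd one at `±1` in the limit, for odd `K` it is the other way round. Both limits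
are Markov, because the position before time `1/2` reveals the parity.
-/

set_option autoImplicit false

namespace Pool.Agent.Results.MP_eb43e0_pr.TwoMarkovianLimits

open MeasureTheory Pool.Agent.T2H73.LC

/-- There is a right-continuous peacock `μ` such that `LimCurt([μ])` contains two different
Markovian elements. -/
theorem result : ∃ μ : T → Measure ℝ, IsPeacock μ ∧ RightContinuous μ ∧
    ∃ P P' : Measure D, P ≠ P' ∧ (P ∈ LimCurt μ ∧ IsMarkov P) ∧
      (P' ∈ LimCurt μ ∧ IsMarkov P') :=
  main

end Pool.Agent.Results.MP_eb43e0_pr.TwoMarkovianLimits
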